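import Pool.Agent.Y142.SV.Stm
import Pool.Agent.Y100.ZS.Tenss
import Pool.Agent.Y664.ZS.Opens

/-!
Project Y142-SV (helper142), task INVV: forms invariant under the isometries in an open subgroup
(helper259, adaptation of `Pool/Agent/Y756/SU/Invu.lean`).
-/

set_option autoImplicit false

open Matrix Filter Topology
open Pool.Agent.Y142.ZO Pool.Agent.Y142.ZI Pool.Agent.Y142.ZS
open Pool.Agent.Y142.SV

namespace Pool.Agent.Y259.SV

/-- the matrices which kill a form at a given family of vectors -/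
def kill {F : Type} [Field F] {N k : ℕ} (φ : MultilinearMap F (fun _ : Fin k => Fin N → F) F)
    (v : Fin k → Fin N → F) : Submodule F (Matrix (Fin N) (Fin N) F) where
  carrier := {X | ∑ j, φ (Function.update v j (X *ᵥ v j)) = 0}
  add_mem' := by
    intro X Y hX hY
    have e : ∀ j, φ (Function.update v j ((X + Y) *ᵥ v j)) =
        φ (Function.update v j (X *ᵥ v j)) + φ (Function.update v j (Y *ᵥ v j)) := by
      intro j
      rw [Matrix.add_mulVec, MultilinearMap.map_update_add]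
    show ∑ j, φ (Function.update v j ((X + Y) *ᵥ v j)) = 0
    rw [Finset.sum_congr rfl fun j _ => e j, Finset.sum_add_distrib]
    rw [show ∑ j, φ (Function.update v j (X *ᵥ v j)) = 0 from hX,
      show ∑ j, φ (Function.update v j (Y *ᵥ v j)) = 0 from hY, add_zero]
  zero_mem' := by
    show ∑ j, φ (Function.update v j ((0 : Matrix (Fin N) (Fin N) F) *ᵥ v j)) = 0
    refine Finset.sum_eq_zero fun j _ => ?_
    rw [Matrix.zero_mulVec, MultilinearMap.map_update_zero]
  smul_mem' := by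
    intro c X hX
    have e : ∀ j, φ (Function.update v j ((c • X) *ᵥ v j)) =
        c * φ (Function.update v j (X *ᵥ v j)) := by
      intro j
      rw [Matrix.smul_mulVec, MultilinearMap.map_update_smul, smul_eq_mul]
    show ∑ j, φ (Function.update v j ((c • X) *ᵥ v j)) = 0
    rw [Finset.sum_congr rfl fun j _ => e j, ← Finset.mul_sum,
      show ∑ j, φ (Function.update v j (X *ᵥ v j)) = 0 from hX, mul_zero]

theorem t (h : Pool.Agent.Y142.SV.S_PERFV) : Pool.Agent.Y142.SV.S_INVV := by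
  intro ℓ _ N G _ _ _ _ ρ hρ J 𝒞 hH hnil hadj hsim htan k φ U hU hφ X hX v
  have hmem := h ℚ_[ℓ] N J 𝒞 hH hnil hadj X hX
  have hle : Submodule.span ℚ_[ℓ] {Z : Matrix (Fin N) (Fin N) ℚ_[ℓ] |
      ∃ Y Y' : Matrix (Fin N) (Fin N) ℚ_[ℓ],
        LieV J 𝒞 Y ∧ LieV J 𝒞 Y' ∧ Z = Y * Y' - Y' * Y} ≤ kill φ v := by
    rw [Submodule.span_le]
    rintro Z ⟨Y, Y', hY, hY', rfl⟩
    obtain ⟨σ, hσ⟩ := Pool.Agent.Y664.ZS.tangent_bracket hsim (htan Y hY) (htan Y' hY')
    exact Pool.Agent.Y100.ZS.inv_tanS (σ := fun n => (σ n).1) (fun n => (σ n).2) hσ φ U hU hφ v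
  exact hle hmem

end Pool.Agent.Y259.SV
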